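import Pool.Agent.Helper24.OWN.FI

/-!
# MP_f028d2_al : a free subgroup of a hyperbolic group with complete membership problem
-/

set_option autoImplicit false

namespace Pool.Agent.Results.MP_f028d2_al.FreeSubgroup

/-- The value of a word in the letters `g i` and their inverses. -/
def ev {G ι : Type} [Group G] (g : ι → G) (l : List (ι × Bool)) : G :=
  (l.map (fun p => if p.2 then g p.1 else (g p.1)⁻¹)).prod

/-- The Cayley graph. -/
def cay {G ι : Type} [Group G] (g : ι → G) : SimpleGraph G :=
  SimpleGraph.fromRel (fun x y => ∃ i, y = x * g i)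

/-- All geodesic triangles are `δ`-thin. -/
def Thin {V : Type} (C : SimpleGraph V) (δ : ℕ) : Prop :=
  ∀ (x y z : V) (p : C.Walk x y) (q : C.Walk y z) (r : C.Walk z x),
    p.length = C.dist x y → q.length = C.dist y z → r.length = C.dist z x →
    ∀ u ∈ p.support, ∃ w, (w ∈ q.support ∨ w ∈ r.support) ∧ C.dist u w ≤ δ

/-- The four point condition. -/
def FourPoint {V : Type} (d : V → V → ℕ) (δ : ℕ) : Prop :=
  ∀ x y z w : V,
    min ((d w x : ℤ) + d w y - d x y) ((d w y : ℤ) + d w z - d y z) - 2 * δ
      ≤ (d w x : ℤ) + d w z - d x z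

/-- The relations `t⁻¹ x t = φ_t(x)`. -/
def rels {m k : ℕ} (φ : Fin k → FreeGroup (Fin m) →* FreeGroup (Fin m)) :
    Set (FreeGroup (Fin m ⊕ Fin k)) :=
  {r | ∃ t x, r = (FreeGroup.of (Sum.inr t))⁻¹ * FreeGroup.of (Sum.inl x) *
    FreeGroup.of (Sum.inr t) * (FreeGroup.map Sum.inl (φ t (FreeGroup.of x)))⁻¹}

/-- The generators. -/
def gen {m k : ℕ} (φ : Fin k → FreeGroup (Fin m) →* FreeGroup (Fin m)) :
    Fin m ⊕ Fin k → PresentedGroup (rels φ) := fun i => PresentedGroup.of i

/-- The value of the word `l` lies in the subgroup generated by `h`. -/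
def Mem {G ι κ : Type} [Group G] (g : ι → G) (h : κ → G) (l : List (ι × Bool)) : Prop :=
  ev g l ∈ Subgroup.closure (Set.range h)

/-- There are injective endomorphisms `φ_t` of a free group `F_m` such that the multiple HNN extension
`G = ⟨F_m, t | t⁻¹ x t = φ_t(x)⟩` is hyperbolic and has a subgroup, free of finite rank, whose membership
problem is complete for r.e. predicates and whose distortion is above every computable function. -/
theorem result :
    ∃ (m k n : ℕ) (φ : Fin k → FreeGroup (Fin m) →* FreeGroup (Fin m))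
      (h : Fin n → PresentedGroup (rels φ)),
      (∀ t, Function.Injective (φ t)) ∧
      Function.Injective (FreeGroup.lift fun x => gen φ (Sum.inl x)) ∧
      (cay (gen φ)).Connected ∧
      (∃ δ, Thin (cay (gen φ)) δ) ∧
      (∃ δ, FourPoint (cay (gen φ)).dist δ) ∧
      Function.Injective (FreeGroup.lift h) ∧
      REPred (Mem (gen φ) h) ∧
      (∀ (α : Type) [Primcodable α] (P : α → Prop), REPred P → P ≤₀ Mem (gen φ) h) ∧
      ¬ ComputablePred (Mem (gen φ) h) ∧
      ∀ f : ℕ → ℕ, Computable f → ∃ u : FreeGroup (Fin n),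
        f ((cay (gen φ)).dist 1 (FreeGroup.lift h u)) < u.norm :=
  Pool.Agent.Helper24.OWN.main

end Pool.Agent.Results.MP_f028d2_al.FreeSubgroup
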